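import Pool.Agent.W307.QF.Stm

/-! QF-NZL: zeros of linear and quadratic polynomials modulo primes. -/

set_option autoImplicit false

namespace Pool.Agent.W486.QF

open Polynomial Finset
open Pool.Agent.W307.QF

theorem nz_zmod (P : ℤ[X]) (p : ℕ) [Fact p.Prime] :
    nz P p = (Finset.univ.filter
      (fun x : ZMod p => (P.map (Int.castRingHom (ZMod p))).eval x = 0)).card := by
  have hp : p.Prime := Fact.out
  unfold nz
  refine Finset.card_bij (fun x _ => (x : ZMod p)) ?_ ?_ ?_
  · intro x hx
    rw [Finset.mem_filter] at hx ⊢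
    refine ⟨Finset.mem_univ _, ?_⟩
    have h := hx.2
    rw [← ZMod.intCast_zmod_eq_zero_iff_dvd] at h
    have e : ((x : ZMod p)) = (((x : ℤ) : ZMod p)) := by push_cast; rfl
    rw [e, Polynomial.eval_intCast_map]
    simpa using h
  · intro x hx y hy hxy
    rw [Finset.mem_filter, Finset.mem_range] at hx hy
    have := congrArg ZMod.val hxy
    rwa [ZMod.val_cast_of_lt hx.1, ZMod.val_cast_of_lt hy.1] at this
  · intro x hx
    rw [Finset.mem_filter] at hx
    refine ⟨x.val, ?_, ZMod.natCast_zmod_val x⟩
    rw [Finset.mem_filter, Finset.mem_range]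
    refine ⟨ZMod.val_lt x, ?_⟩
    rw [← ZMod.intCast_zmod_eq_zero_iff_dvd]
    have h := hx.2
    have e : x = (((x.val : ℤ) : ZMod p)) := by
      push_cast; rw [ZMod.natCast_zmod_val]
    rw [e, Polynomial.eval_intCast_map] at h
    simpa using h

theorem nzl : NZL := by
  intro P hdeg hirr
  rcases hdeg with h1 | h2
  · -- degree one
    refine ⟨0, (P.coeff 1).natAbs, Or.inl rfl, ?_⟩
    intro p hp hlt
    have : Fact p.Prime := ⟨hp⟩
    have ha : P.coeff 1 ≠ 0 := by
      rw [← h1]
      have hP : P ≠ 0 := by rintro rfl; simp at h1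
      simpa using hP
    have hpa : ((P.coeff 1 : ℤ) : ZMod p) ≠ 0 := by
      intro h
      rw [ZMod.intCast_zmod_eq_zero_iff_dvd] at h
      have := Int.natAbs_dvd_natAbs.2 h
      have := Nat.le_of_dvd (Int.natAbs_pos.2 ha) this
      simp at this; omega
    have hre : re 0 p = 1 := by
      unfold re
      rw [jacobiSym.zero_left hp.one_lt]; rfl
    rw [hre, nz_zmod, Finset.card_eq_one]
    refine ⟨-((P.coeff 0 : ℤ) : ZMod p) / ((P.coeff 1 : ℤ) : ZMod p), ?_⟩
    have hev : ∀ x : ZMod p, (P.map (Int.castRingHom (ZMod p))).eval x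
        = ((P.coeff 1 : ℤ) : ZMod p) * x + ((P.coeff 0 : ℤ) : ZMod p) := by
      intro x
      have hP := Polynomial.eq_X_add_C_of_natDegree_le_one (le_of_eq h1)
      conv_lhs => rw [hP]
      simp
    ext x
    rw [Finset.mem_filter, Finset.mem_singleton, hev]
    constructor
    · rintro ⟨-, h⟩
      rw [eq_div_iff hpa]
      linear_combination h
    · intro h
      refine ⟨Finset.mem_univ _, ?_⟩
      rw [h]; field_simp; ring
  · -- degree two
    set a := P.coeff 2 with ha'
    set b := P.coeff 1 with hb'
    set c := P.coeff 0 with hc'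
    have hP : P = C a * X ^ 2 + C b * X + C c :=
      Polynomial.eq_quadratic_of_degree_le_two (Polynomial.natDegree_le_iff_degree_le.1 h2.le)
    have ha : a ≠ 0 := by
      rw [ha', ← h2]
      have hP : P ≠ 0 := by rintro rfl; simp at h2
      simpa using hP
    refine ⟨b ^ 2 - 4 * a * c, 2 * a.natAbs, Or.inr ?_, ?_⟩
    · rintro ⟨r, hr⟩
      have hroot : (P.map (Int.castRingHom ℚ)).IsRoot ((-(b : ℚ) + r) / (2 * a)) := by
        rw [Polynomial.IsRoot.def, hP]
        have haQ : (a : ℚ) ≠ 0 := by exact_mod_cast ha
        have hrQ : (b : ℚ) ^ 2 - 4 * a * c = r * r := by exact_mod_cast hr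
        simp only [Polynomial.map_add, Polynomial.map_mul, Polynomial.map_pow, Polynomial.map_X,
          Polynomial.map_C, Polynomial.eval_add, Polynomial.eval_mul, Polynomial.eval_pow,
          Polynomial.eval_X, Polynomial.eval_C, Int.coe_castRingHom]
        field_simp
        linear_combination (-1) * hrQ
      have := Polynomial.degree_eq_one_of_irreducible_of_root hirr hroot
      have hd := Polynomial.natDegree_map_eq_of_injective
        (f := Int.castRingHom ℚ) (RingHom.injective_int _) P
      have h3 : (P.map (Int.castRingHom ℚ)).natDegree = 1 :=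
        Polynomial.natDegree_eq_of_degree_eq_some (by simpa using this)
      omega
    · intro p hp hlt
      have : Fact p.Prime := ⟨hp⟩
      have ha1 : 1 ≤ a.natAbs := Int.natAbs_pos.2 ha
      have hp2 : p ≠ 2 := by omega
      have h2p : (2 : ZMod p) ≠ 0 := by
        intro h
        have : ((2 : ℕ) : ZMod p) = 0 := by exact_mod_cast h
        rw [ZMod.natCast_eq_zero_iff] at this
        have := Nat.le_of_dvd (by norm_num) this
        omega
      have hpa : (a : ZMod p) ≠ 0 := by
        intro h
        rw [ZMod.intCast_zmod_eq_zero_iff_dvd] at h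
        have := Int.natAbs_dvd_natAbs.2 h
        have := Nat.le_of_dvd (Int.natAbs_pos.2 ha) this
        simp at this; omega
      have hcard := legendreSym.card_sqrts p hp2 (b ^ 2 - 4 * a * c)
      have hev : ∀ x : ZMod p, (P.map (Int.castRingHom (ZMod p))).eval x
          = (a : ZMod p) * x ^ 2 + (b : ZMod p) * x + (c : ZMod p) := by
        intro x
        rw [hP]; simp
      have hnz : nz P p = {x : ZMod p | x ^ 2 = ((b ^ 2 - 4 * a * c : ℤ) : ZMod p)}.toFinset.card := by
        rw [nz_zmod]
        refine Finset.card_bij (fun x _ => 2 * (a : ZMod p) * x + b) ?_ ?_ ?_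
        · intro x hx
          rw [Finset.mem_filter, hev] at hx
          rw [Set.mem_toFinset, Set.mem_ofPred_eq]
          push_cast
          linear_combination 4 * (a : ZMod p) * hx.2
        · intro x _ y _ h
          have : 2 * (a : ZMod p) * (x - y) = 0 := by linear_combination h
          rcases mul_eq_zero.1 this with h' | h'
          · exact absurd h' (mul_ne_zero h2p hpa)
          · exact sub_eq_zero.1 h'
        · intro y hy
          rw [Set.mem_toFinset, Set.mem_ofPred_eq] at hy
          push_cast at hy
          refine ⟨(y - b) / (2 * a), ?_, ?_⟩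
          · rw [Finset.mem_filter, hev]
            refine ⟨Finset.mem_univ _, ?_⟩
            field_simp
            linear_combination hy
          · field_simp
            ring
      rw [jacobiSym.legendreSym.to_jacobiSym, ← hnz] at hcard
      unfold re
      have : (1 + jacobiSym (b ^ 2 - 4 * a * c) p) = ((nz P p : ℕ) : ℤ) := by
        rw [hcard]; ring
      rw [this, Int.toNat_natCast]

end Pool.Agent.W486.QF
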